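import Pool.Agent.Q182.Bty2

set_option autoImplicit false

/-!
# Arbitrary maps at almost all Beatty type times

First part: `T_1, ..., T_m` are arbitrary measure preserving maps of one probability space (they need not be invertible,
commute or generate a nilpotent group; they may also coincide), and each `p_j(n)` is a power `n^θ` with real `θ > 0` or
a real polynomial of positive degree with positive leading coefficient. For Lebesgue almost every `(a_1, ..., a_m)` with
positive coordinates the averages over `1 ≤ n ≤ N` of `∏ f_j (T_j^⌊a_j p_j(n)⌋ x)` converge for almost every `x`, and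
the limit is the product of the conditional expectations of the `f_j` on the sets invariant under `T_j`.

Second part: for invertible maps and arbitrary real polynomials `P_j` of positive degree the same holds for almost every
`(a_1, ..., a_m)` in `ℝ ^ m` and the averages over `|n| ≤ N`, where the `⌊a_j P_j(n)⌋` may be negative.

Proof: `Pool.Agent.Y957.MC` and the earlier files of that project (one map, all bounded weights at once, almost every
multiple), with `Pool.Agent.Q182.Bty1` and `Bty2` for the second part: `⌊-y⌋ = -(⌊y⌋ + 1)` unless `y` is an integer, so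
that negative times are positive times of the inverse map and the shifted function.
-/

namespace Pool.Agent.Results.MP_4d8f14_an.BeattyTimes

open MeasureTheory Filter Finset

universe u

/-- a power with positive real exponent, or a real polynomial of positive degree with positive leading coefficient -/
def IsTimes (p : ℕ → ℝ) : Prop :=
  (∃ θ : ℝ, 0 < θ ∧ ∀ n : ℕ, p n = (n : ℝ) ^ θ) ∨
  (∃ P : Polynomial ℝ, 0 < P.natDegree ∧ 0 < P.leadingCoeff ∧ ∀ n : ℕ, p n = P.eval (n : ℝ))

theorem result :
    (∀ (X : Type u) [MeasurableSpace X] (μ : Measure X) [IsProbabilityMeasure μ] (m : ℕ) (T : Fin m → X → X)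
      (p : Fin m → ℕ → ℝ) (f : Fin m → X → ℂ),
      (∀ j, MeasurePreserving (T j) μ μ) → (∀ j, IsTimes (p j)) → (∀ j, AEStronglyMeasurable (f j) μ) →
      (∀ j, ∃ C : ℝ, ∀ᵐ x ∂μ, ‖f j x‖ ≤ C) →
      ∀ᵐ a : Fin m → ℝ, (∀ j, 0 < a j) → ∀ᵐ x ∂μ,
        Tendsto (fun N : ℕ => (1 / (N : ℂ)) * ∑ n ∈ Icc 1 N, ∏ j, f j ((T j)^[⌊a j * p j n⌋₊] x)) atTop
          (nhds (∏ j, (μ[f j | MeasurableSpace.invariants (T j)]) x))) ∧
    (∀ (X : Type u) [MeasurableSpace X] (μ : Measure X) [IsProbabilityMeasure μ] (m : ℕ) (T : Fin m → Equiv.Perm X)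
      (P : Fin m → Polynomial ℝ) (f : Fin m → X → ℂ),
      (∀ j, MeasurePreserving (T j) μ μ) → (∀ j, Measurable ((T j)⁻¹ : Equiv.Perm X)) →
      (∀ j, 0 < (P j).natDegree) → (∀ j, AEStronglyMeasurable (f j) μ) → (∀ j, ∃ C : ℝ, ∀ᵐ x ∂μ, ‖f j x‖ ≤ C) →
      ∀ᵐ a : Fin m → ℝ, ∀ᵐ x ∂μ,
        Tendsto (fun N : ℕ => (1 / (2 * (N : ℂ) + 1)) * ∑ n ∈ Icc (-(N : ℤ)) N,
          ∏ j, f j (((T j) ^ ⌊a j * (P j).eval (n : ℝ)⌋ : Equiv.Perm X) x)) atTop
          (nhds (∏ j, (μ[f j | MeasurableSpace.invariants (T j)]) x))) := by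
  refine ⟨?_, ?_⟩
  · intro X _ μ _ m T p f hT hp hf hfb
    refine Pool.Agent.Y957.MC.maps_Linf hT (fun j => ?_) hf hfb
    rcases hp j with ⟨θ, hθ, h⟩ | ⟨P, h1, h2, h⟩
    · have e : p j = fun n : ℕ => (n : ℝ) ^ θ := funext h
      rw [e]
      exact Pool.Agent.Y957.MC.good_pow hθ
    · have e : p j = fun n : ℕ => P.eval (n : ℝ) := funext h
      rw [e]
      exact Pool.Agent.Y957.MC.good_poly h1 h2
  · intro X _ μ _ m T P f hT hT' hP hf hfb
    exact Pool.Agent.Q182.Bty.inv_Linf hT hT' hP hf hfb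

end Pool.Agent.Results.MP_4d8f14_an.BeattyTimes
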