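import Pool.Agent.Q182.KT2

/-!
# Towers of Kolmogorov extensions over algebraic actions

`T_1, …, T_d` are commuting measure preserving bijections of a probability space `(X, μ)` and
`T^a = T_1^(a_1) ⋯ T_d^(a_d)` for `a ∈ ℤ^d`. `𝒴_0 ⊆ 𝒴_1 ⊆ …` are invariant `σ`-algebras which
generate all measurable sets modulo `μ`, each `𝒴_(i+1)` is a Kolmogorov extension of `𝒴_i` with
respect to some `w_i ∈ ℝ^d` (for `𝒴_(i+1) = 𝒴_i`: a trivial extension, so finite towers are
included), and `𝒴_0 = φ⁻¹` of the measurable sets of a factor `(Y, ν, R)` which is a factor of an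
algebraic `ℤ^d`-action (commuting affine bijections of any compact abelian group).

Then the multiple averages along `n ↦ T^(n a_j)` converge almost everywhere for all bounded
functions, whenever for every `i` the numbers `⟨w_i, a_j⟩`, `j = 1, …, m`, are nonzero and distinct.
-/

set_option autoImplicit false

open Filter Topology MeasureTheory
open scoped ENNReal

namespace Pool.Agent.Results.MP_4d8f14_an.KolmogorovTowers

open Pool.Agent.Q182.KT

theorem result (d m : ℕ) {X Y : Type} (𝒴 : ℕ → MeasurableSpace X) [mX : MeasurableSpace X]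
    [mY : MeasurableSpace Y] (μ : Measure X) [IsProbabilityMeasure μ] (ν : Measure Y)
    (T : Fin d → Equiv.Perm X) (hT : ∀ i, MeasurePreserving (T i) μ μ)
    (hT' : ∀ i, Measurable (T i).symm) (hc : ∀ i j, Commute (T i) (T j))
    (R : Fin d → Equiv.Perm Y) (hR : ∀ i, MeasurePreserving (R i) ν ν)
    (hR' : ∀ i, Measurable (R i).symm) (halg : IsAlgebraicFactor ν R)
    (φ : X → Y) (hφ : MeasurePreserving φ μ ν) (hφT : ∀ i x, φ (T i x) = R i (φ x))
    (h0 : 𝒴 0 = MeasurableSpace.comap φ mY)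
    (hle : ∀ i, 𝒴 i ≤ mX) (hinv : ∀ i a, Measurable[𝒴 i, 𝒴 i] (pw T a : X → X))
    (hgen : ∀ B, MeasurableSet[mX] B → ∃ B', MeasurableSet[⨆ i, 𝒴 i] B' ∧ B =ᵐ[μ] B')
    (w : ℕ → Fin d → ℝ) (hK : ∀ i, IsKolmogorovExtension μ T (w i) (𝒴 i) (𝒴 (i + 1)))
    (a : Fin m → Fin d → ℤ) (ha0 : ∀ i j, dot (w i) (a j) ≠ 0)
    (ha : ∀ i j j', j ≠ j' → dot (w i) (a j) ≠ dot (w i) (a j'))
    (f : Fin m → X → ℂ) (hf : ∀ j, MemLp (f j) ∞ μ) :
    ∀ᵐ x ∂μ, ∃ L : ℂ, Tendsto (fun N : ℕ => ((2 * N + 1 : ℕ) : ℂ)⁻¹ *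
      ∑ n ∈ Finset.Icc (-(N : ℤ)) (N : ℤ), ∏ j, f j (pw T (fun i => n * a j i) x)) atTop (𝓝 L) := by
  choose g hg hfg using fun j => Pool.Agent.W761.Gauss.BM_of_memLp (hf j)
  have h1 := main (m := m) (a := a) hT hT' hc hR' hR halg hφ hφT h0 hle hinv hK hgen ha0 ha hg
  have hneg : ∀ i j, dot (w i) (fun l => -(a j l)) = -dot (w i) (a j) := by
    intro i j
    unfold dot
    rw [← Finset.sum_neg_distrib]
    refine Finset.sum_congr rfl fun l _ => ?_
    push_cast
    ring
  have h2 := main (m := m) (a := fun j l => -(a j l)) hT hT' hc hR' hR halg hφ hφT h0 hle hinv hK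
    hgen (fun i j => by rw [hneg]; exact neg_ne_zero.2 (ha0 i j))
    (fun i j j' h => by rw [hneg, hneg]; exact fun h' => ha i j j' h (neg_injective h')) hg
  have hTinv : ∀ i, MeasurePreserving ((T i)⁻¹ : Equiv.Perm X) μ μ := by
    intro i
    let e : X ≃ᵐ X := ⟨T i, (hT i).measurable, hT' i⟩
    exact (hT i).symm e
  have h3 : ∀ᵐ x ∂μ, ∀ (n : ℤ) (j : Fin m), f j (pw T (fun i => n * a j i) x) =
      g j (pw T (fun i => n * a j i) x) := by
    rw [ae_all_iff]
    intro n
    rw [ae_all_iff]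
    intro j
    exact (Pool.Agent.W761.Gauss.mp_prod hT hTinv _).quasiMeasurePreserving.ae (hfg j)
  filter_upwards [h1, h2, h3] with x hx1 hx2 hx3
  obtain ⟨L, hL⟩ := Pool.Agent.TH784.AA.two_sided
    (F := fun n : ℤ => ∏ j, g j (pw T (fun i => n * a j i) x)) hx1 (by
      obtain ⟨L, hL⟩ := hx2
      refine ⟨L, hL.congr fun N => ?_⟩
      congr 1
      funext n
      refine Finset.prod_congr rfl fun j _ => ?_
      have e : (fun i => ((n 0 : ℕ) : ℤ) * -a j i) = fun i => -((n 0 : ℕ) : ℤ) * a j i := by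
        funext l
        ring
      rw [e])
  refine ⟨L, hL.congr fun N => ?_⟩
  congr 1
  refine Finset.sum_congr rfl fun n _ => ?_
  refine Finset.prod_congr rfl fun j _ => ?_
  rw [hx3]

end Pool.Agent.Results.MP_4d8f14_an.KolmogorovTowers
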