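import Pool.Agent.Q183.LL.Mes

set_option autoImplicit false

/-!
# The Furstenberg–Bergelson–Leibman question is equivalent to its case of the exponents `n`, `-n`

For every number `m` of functions, the almost everywhere convergence of the nilpotent polynomial
averages (all polynomials, all nilpotent groups) is equivalent to that of the averages of
`∏ f_j (S^n R_j^(-n) x)` (`S, R_1, ..., R_m` generate a nilpotent group), and to that of the averages of
`∏ f_j ([S^n, V_j] x)` along commutators. More precisely, class at most `c` and polynomials of degree at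
most `D` (for instance commuting maps, `c = 1`) reduce to commutators in groups of class at most
`c (D + 1)`.

Proof. The polynomial sequences `g : ℤ → G` form a group (Lazard, Leibman; proved in
`Pool.Agent.Q183.LL.Pol`), which together with the shift generates a nilpotent group of class at most
`c (D + 1)`. It acts on the space `X^ℤ` with the product measure: the shift is `S`, and a sequence `g`
acts by `(V y)_i = g(i) y_i`. Then `([S^n, V] y)_0 = g(n) g(0)⁻¹ y_0`.
-/

open MeasureTheory Filter Topology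
open scoped ENNReal commutatorElement

namespace Pool.Agent.Results.MP_4d8f14_an.LinearExponents

/-- The average over `|n| ≤ N` of `∏ f_j (g_j(n) x)`. -/
noncomputable def avg {X : Type} {m : ℕ} (f : Fin m → X → ℂ) (g : Fin m → ℤ → Equiv.Perm X) (N : ℕ)
    (x : X) : ℂ :=
  ((2 * N + 1 : ℕ) : ℂ)⁻¹ * ∑ n ∈ Finset.Icc (-(N : ℤ)) (N : ℤ), ∏ j : Fin m, f j (g j n x)

/-- The averages of all tuples of `L^∞` functions converge almost everywhere. -/
def Conv {X : Type} [MeasurableSpace X] (μ : Measure X) {m : ℕ} (g : Fin m → ℤ → Equiv.Perm X) :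
    Prop :=
  ∀ f : Fin m → X → ℂ, (∀ j, MemLp (f j) ∞ μ) →
    ∀ᵐ x ∂μ, ∃ L : ℂ, Tendsto (fun N : ℕ => avg f g N x) atTop (𝓝 L)

/-- The `T_i` are invertible and measure preserving, and generate a nilpotent group of class at most
`c`. -/
structure NilSystem {X : Type} [MeasurableSpace X] (μ : Measure X) {d : ℕ} (T : Fin d → Equiv.Perm X)
    (c : ℕ) : Prop where
  inverse : ∀ i, Measurable ⇑(T i).symm
  preserving : ∀ i, MeasurePreserving (⇑(T i)) μ μ
  nilpotent : (Subgroup.closure (Set.range T)).lowerCentralSeries c = ⊥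

/-- `g_j(n) = T_1^(P_1j(n)) ⋯ T_d^(P_dj(n))`. -/
def word {X : Type} {d m : ℕ} (T : Fin d → Equiv.Perm X) (P : Fin d → Fin m → Polynomial ℤ)
    (j : Fin m) (n : ℤ) : Equiv.Perm X :=
  (List.ofFn fun i : Fin d => T i ^ (P i j).eval n).prod

/-- The question (Q1), for `m` functions. -/
def Question (m : ℕ) : Prop :=
  ∀ (X : Type) [MeasurableSpace X] (μ : Measure X) [IsProbabilityMeasure μ] (d : ℕ)
    (T : Fin d → Equiv.Perm X), (∀ i, Measurable ⇑(T i).symm) →
    (∀ i, MeasurePreserving (⇑(T i)) μ μ) → Group.IsNilpotent (Subgroup.closure (Set.range T)) →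
    ∀ P : Fin d → Fin m → Polynomial ℤ, (∀ i j, (P i j).eval 0 = 0) → Conv μ (word T P)

/-- The question for `m` functions, class at most `c` and degrees at most `D`. -/
def PolyQuestion (m c D : ℕ) : Prop :=
  ∀ (X : Type) [MeasurableSpace X] (μ : Measure X) [IsProbabilityMeasure μ] (d : ℕ)
    (T : Fin d → Equiv.Perm X), NilSystem μ T c →
    ∀ P : Fin d → Fin m → Polynomial ℤ, (∀ i j, (P i j).eval 0 = 0) →
      (∀ i j, (P i j).natDegree ≤ D) → Conv μ (word T P)

/-- The averages of `∏ f_j (S^n R_j^(-n) x)`, where `S, R_1, ..., R_m` generate a nilpotent group of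
class at most `c`. -/
def LinearQuestion (m c : ℕ) : Prop :=
  ∀ (X : Type) [MeasurableSpace X] (μ : Measure X) [IsProbabilityMeasure μ] (S : Equiv.Perm X)
    (R : Fin m → Equiv.Perm X), NilSystem μ (Fin.cons S R : Fin (m + 1) → Equiv.Perm X) c →
    Conv μ (fun (j : Fin m) (n : ℤ) => S ^ n * R j ^ (-n))

/-- The averages of `∏ f_j ([S^n, V_j] x)`, where `S, V_1, ..., V_m` generate a nilpotent group of
class at most `c`; here `[a, b] = a b a⁻¹ b⁻¹`. -/
def CommutatorQuestion (m c : ℕ) : Prop :=
  ∀ (X : Type) [MeasurableSpace X] (μ : Measure X) [IsProbabilityMeasure μ] (S : Equiv.Perm X)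
    (V : Fin m → Equiv.Perm X), NilSystem μ (Fin.cons S V : Fin (m + 1) → Equiv.Perm X) c →
    Conv μ (fun (j : Fin m) (n : ℤ) => ⁅S ^ n, V j⁆)

theorem conv_of_meas {X : Type} [MeasurableSpace X] {μ : Measure X} {m : ℕ}
    {g : Fin m → ℤ → Equiv.Perm X} (hg : ∀ j n, MeasurePreserving (g j n) μ μ)
    (h : ∀ f : Fin m → X → ℂ, (∀ j, MemLp (f j) ∞ μ) → (∀ j, Measurable (f j)) →
      ∀ᵐ x ∂μ, ∃ L : ℂ, Tendsto (fun N : ℕ => avg f g N x) atTop (𝓝 L)) : Conv μ g := by
  intro f hf
  have h1 := h (fun j => (hf j).1.mk (f j)) (fun j => (memLp_congr_ae (hf j).1.ae_eq_mk).1 (hf j))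
    (fun j => (hf j).1.stronglyMeasurable_mk.measurable)
  have h2 : ∀ᵐ x ∂μ, ∀ (j : Fin m) (n : ℤ), f j (g j n x) = (hf j).1.mk (f j) (g j n x) := by
    rw [ae_all_iff]
    intro j
    rw [ae_all_iff]
    intro n
    exact (hg j n).quasiMeasurePreserving.ae (hf j).1.ae_eq_mk
  filter_upwards [h1, h2] with x hx1 hx2
  obtain ⟨L, hL⟩ := hx1
  refine ⟨L, ?_⟩
  have e : (fun N : ℕ => avg f g N x) =
      (fun N : ℕ => avg (fun j => (hf j).1.mk (f j)) g N x) := by
    funext N
    unfold avg
    congr 1
    apply Finset.sum_congr rfl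
    intro n _
    apply Finset.prod_congr rfl
    intro j _
    exact hx2 j n
  rw [e]
  exact hL

/-- the extension -/
theorem poly_of_comm {m c D : ℕ} (hc : 1 ≤ c) (h : CommutatorQuestion m (c * (D + 1))) :
    PolyQuestion m c D := by
  intro X _ μ _ d T hT P hP0 hPD
  set S0 : Subgroup (Equiv.Perm X) := Subgroup.closure (Set.range T) with hS0
  have he : 1 ≤ D + 1 := by omega
  have hTm : ∀ i, T i ∈ Q183.LL.MP μ := fun i => ⟨hT.inverse i, hT.preserving i⟩
  have hS0m : S0 ≤ Q183.LL.MP μ := by
    rw [hS0, Subgroup.closure_le]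
    rintro _ ⟨i, rfl⟩
    exact hTm i
  have hTS : ∀ i, T i ∈ S0 := fun i => Subgroup.subset_closure ⟨i, rfl⟩
  have hg : ∀ j, (fun n => word T P j n) ∈ Q183.LL.PolG (Q183.LL.Fil S0 (D + 1)) Q183.LL.Fil_anti
      (Q183.LL.Fil_comm he) 1 := fun j =>
    Q183.LL.word_PolG he hTS (P := fun i => P i j) fun i => by
      have := hPD i j
      omega
  have hgS : ∀ j n, word T P j n ∈ S0 := by
    intro j n
    unfold word
    apply list_prod_mem
    intro x hx
    rw [List.mem_ofFn] at hx
    obtain ⟨i, rfl⟩ := hx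
    exact S0.zpow_mem (hTS i) _
  have hg0 : ∀ j, word T P j 0 = 1 := by
    intro j
    unfold word
    apply List.prod_eq_one
    intro x hx
    rw [List.mem_ofFn] at hx
    obtain ⟨i, rfl⟩ := hx
    rw [hP0, zpow_zero]
  -- the extension
  set S : Equiv.Perm (ℤ → X) := Q183.LL.Th 1 1 with hS
  set V : Fin m → Equiv.Perm (ℤ → X) := fun j => Q183.LL.Th (fun n => word T P j n) 0 with hV
  set ν : Measure (ℤ → X) := Measure.infinitePi (fun _ : ℤ => μ) with hν
  have hSm : S ∈ Q183.LL.MP ν := Q183.LL.Th_mp μ (fun _ => one_mem _) 1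
  have hVm : ∀ j, V j ∈ Q183.LL.MP ν := fun j => Q183.LL.Th_mp μ (fun n => hS0m (hgS j n)) 0
  have hsys : NilSystem ν (Fin.cons S V : Fin (m + 1) → Equiv.Perm (ℤ → X)) (c * (D + 1)) := by
    refine ⟨?_, ?_, ?_⟩
    · intro i
      refine Fin.cases ?_ (fun j => ?_) i
      · exact hSm.1
      · exact (hVm j).1
    · intro i
      refine Fin.cases ?_ (fun j => ?_) i
      · exact hSm.2
      · exact (hVm j).2
    · have hle : Subgroup.closure (Set.range (Fin.cons S V : Fin (m + 1) → Equiv.Perm (ℤ → X))) ≤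
          Q183.LL.L0 S0 (D + 1) he := by
        rw [Subgroup.closure_le]
        rintro _ ⟨i, rfl⟩
        refine Fin.cases ?_ (fun j => ?_) i
        · exact ⟨1, 1, one_mem _, rfl⟩
        · exact ⟨0, _, hg j, rfl⟩
      rw [eq_bot_iff, ← Q183.LL.lcs_bot he hc hT.nilpotent]
      exact Subgroup.lowerCentralSeries_mono _ hle
  have hconv := h (ℤ → X) ν S V hsys
  -- the commutators
  have hSn : ∀ n : ℤ, S ^ n = Q183.LL.Th 1 n := by
    have h1 : ∀ l k : ℤ, Q183.LL.Th (1 : ℤ → Equiv.Perm X) l * Q183.LL.Th 1 k =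
        Q183.LL.Th 1 (l + k) := by
      intro l k
      rw [Q183.LL.Th_mul]
      congr 1
    intro n
    induction n using Int.induction_on with
    | zero => rw [zpow_zero, Q183.LL.Th_one]
    | succ n ih => rw [zpow_add_one, ih, hS, h1]
    | pred n ih =>
      rw [zpow_sub_one, ih, mul_inv_eq_iff_eq_mul, hS, h1]
      congr 1
      ring
  have hcom : ∀ (j : Fin m) (n : ℤ) (y : ℤ → X), (⁅S ^ n, V j⁆ : Equiv.Perm (ℤ → X)) y 0 =
      word T P j n (y 0) := by
    intro j n y
    have h1 : ⁅S ^ n, V j⁆ = (S ^ n * V j) * (V j * S ^ n)⁻¹ := by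
      rw [commutatorElement_def]
      group
    rw [h1, hSn, hV]
    simp only
    rw [Q183.LL.Th_mul, Q183.LL.Th_mul, add_comm n 0, Q183.LL.Th_div, Q183.LL.Th_apply]
    simp only [Pi.mul_apply, Pi.inv_apply, Q183.LL.sh, zero_add, add_zero, one_mul, Pi.one_apply,
      mul_one, mul_inv_rev, inv_one]
    rw [hg0, inv_one, mul_one]
  have hev : MeasurePreserving (Function.eval (0 : ℤ)) ν μ :=
    measurePreserving_eval_infinitePi (fun _ : ℤ => μ) 0
  apply conv_of_meas (fun j n => (hS0m (hgS j n)).2)
  intro f hf hfm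
  have h1 := hconv (fun j y => f j (y 0)) (fun j => (hf j).comp_measurePreserving hev)
  have e : ∀ (N : ℕ) (y : ℤ → X), avg (fun j y => f j (y 0)) (fun (j : Fin m) (n : ℤ) => ⁅S ^ n, V j⁆)
      N y = avg f (word T P) N (y 0) := by
    intro N y
    unfold avg
    congr 1
    apply Finset.sum_congr rfl
    intro n _
    apply Finset.prod_congr rfl
    intro j _
    show f j ((⁅S ^ n, V j⁆ : Equiv.Perm (ℤ → X)) y 0) = _
    rw [hcom]
  simp only [e] at h1
  have hmeas : MeasurableSet {x : X | ∃ L : ℂ, Tendsto (fun N : ℕ => avg f (word T P) N x) atTop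
      (𝓝 L)} := by
    apply measurableSet_exists_tendsto
    intro N
    unfold avg
    apply Measurable.const_mul
    apply Finset.measurable_sum
    intro n _
    apply Finset.measurable_prod
    intro j _
    exact (hfm j).comp (hS0m (hgS j n)).2.measurable
  have h2 := ae_map_iff (μ := ν) hev.measurable.aemeasurable hmeas
  rw [hev.map_eq] at h2
  exact h2.2 h1

theorem comm_of_lin {m c : ℕ} (h : LinearQuestion m c) : CommutatorQuestion m c := by
  intro X _ μ _ S V hSV
  have hmem : ∀ i, (Fin.cons S V : Fin (m + 1) → Equiv.Perm X) i ∈ Q183.LL.MP μ := fun i =>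
    ⟨hSV.inverse i, hSV.preserving i⟩
  have hS : S ∈ Q183.LL.MP μ := hmem 0
  have hV : ∀ j, V j ∈ Q183.LL.MP μ := fun j => hmem j.succ
  have hS' : S ∈ Subgroup.closure (Set.range (Fin.cons S V : Fin (m + 1) → Equiv.Perm X)) :=
    Subgroup.subset_closure ⟨0, rfl⟩
  have hV' : ∀ j, V j ∈ Subgroup.closure (Set.range (Fin.cons S V : Fin (m + 1) → Equiv.Perm X)) :=
    fun j => Subgroup.subset_closure ⟨j.succ, rfl⟩
  have hR : ∀ j, V j * S * (V j)⁻¹ ∈ Q183.LL.MP μ := fun j =>
    mul_mem (mul_mem (hV j) hS) (inv_mem (hV j))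
  have h1 := h X μ S (fun j => V j * S * (V j)⁻¹) ?_
  · have e : (fun (j : Fin m) (n : ℤ) => S ^ n * (V j * S * (V j)⁻¹) ^ (-n)) =
        (fun (j : Fin m) (n : ℤ) => ⁅S ^ n, V j⁆) := by
      funext j n
      rw [conj_zpow, commutatorElement_def, zpow_neg]
      group
    rw [e] at h1
    exact h1
  · refine ⟨?_, ?_, ?_⟩
    · intro i
      refine Fin.cases ?_ (fun j => ?_) i
      · exact hS.1
      · exact (hR j).1
    · intro i
      refine Fin.cases ?_ (fun j => ?_) i
      · exact hS.2
      · exact (hR j).2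
    · rw [eq_bot_iff, ← hSV.nilpotent]
      apply Subgroup.lowerCentralSeries_mono
      rw [Subgroup.closure_le]
      rintro _ ⟨i, rfl⟩
      refine Fin.cases ?_ (fun j => ?_) i
      · exact hS'
      · exact mul_mem (mul_mem (hV' j) hS') (inv_mem (hV' j))

theorem prod_single {G : Type} [Group G] (A : G) : ∀ {m : ℕ} (j : Fin m),
    (List.ofFn fun i : Fin m => if i = j then A else 1).prod = A := by
  intro m
  induction m with
  | zero => intro j; exact j.elim0
  | succ m ih =>
    intro j
    rw [List.ofFn_succ, List.prod_cons]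
    by_cases hj : j = 0
    · subst hj
      rw [if_pos rfl]
      have h3 : (List.ofFn fun i : Fin m => if i.succ = (0 : Fin (m + 1)) then A else 1).prod
          = 1 := by
        apply List.prod_eq_one
        intro x hx
        rw [List.mem_ofFn] at hx
        obtain ⟨i, rfl⟩ := hx
        rw [if_neg (Fin.succ_ne_zero i)]
      rw [h3, mul_one]
    · obtain ⟨j', rfl⟩ := Fin.exists_succ_eq.2 hj
      rw [if_neg (Ne.symm (Fin.succ_ne_zero j')), one_mul]
      have h3 := ih j'
      have h4 : (fun i : Fin m => if i.succ = j'.succ then A else 1) =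
          (fun i : Fin m => if i = j' then A else 1) := by
        funext i
        by_cases hij : i = j'
        · subst hij
          simp
        · rw [if_neg hij, if_neg (fun hh => hij (Fin.succ_injective _ hh))]
      rw [h4]
      exact h3

theorem lin_of_question {m : ℕ} (h : Question m) (c : ℕ) : LinearQuestion m c := by
  intro X _ μ _ S R hSR
  have h1 := h X μ (m + 1) (Fin.cons S R : Fin (m + 1) → Equiv.Perm X) hSR.inverse hSR.preserving
    (Subgroup.isNilpotent_iff_lowerCentralSeries _ |>.2 ⟨c, hSR.nilpotent⟩)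
    (fun i j => if i = 0 then Polynomial.X else if i = j.succ then -Polynomial.X else 0) (by
      intro i j
      split_ifs <;> simp)
  have e : word (Fin.cons S R : Fin (m + 1) → Equiv.Perm X)
      (fun (i : Fin (m + 1)) (j : Fin m) => if i = 0 then Polynomial.X else
        if i = j.succ then -Polynomial.X else 0) =
      (fun (j : Fin m) (n : ℤ) => S ^ n * R j ^ (-n)) := by
    funext j n
    unfold word
    rw [List.ofFn_succ, List.prod_cons]
    simp only [Fin.cons_zero, if_true, Polynomial.eval_X, Fin.cons_succ, Fin.succ_ne_zero, if_false]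
    congr 1
    have h2 : (fun i : Fin m => R i ^ Polynomial.eval n
        (if i.succ = j.succ then -Polynomial.X else (0 : Polynomial ℤ))) =
        (fun i : Fin m => if i = j then R j ^ (-n) else 1) := by
      funext i
      by_cases hij : i = j
      · subst hij
        simp
      · have : i.succ ≠ j.succ := fun hh => hij (Fin.succ_injective _ hh)
        rw [if_neg this, if_neg hij]
        simp
    rw [h2]
    exact prod_single (R j ^ (-n)) j
  rw [e] at h1
  exact h1

/-- **Linear exponents suffice for the pointwise convergence question.** -/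
theorem result :
    -- (1) class at most `c` and degree at most `D` reduce to commutators in class at most `c (D + 1)`
    (∀ m c D : ℕ, 1 ≤ c → CommutatorQuestion m (c * (D + 1)) → PolyQuestion m c D) ∧
    -- (2) the question, the exponents `n`, `-n`, and the commutators
    (∀ m : ℕ, List.TFAE [Question m, ∀ c, LinearQuestion m c, ∀ c, CommutatorQuestion m c]) := by
  refine ⟨fun m c D hc h => poly_of_comm hc h, fun m => ?_⟩
  tfae_have 1 → 2 := fun h c => lin_of_question h c
  tfae_have 2 → 3 := fun h c => comm_of_lin (h c)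
  tfae_have 3 → 1 := by
    intro h X _ μ _ d T hT1 hT2 hT3 P hP0
    obtain ⟨c, hc⟩ := (Subgroup.isNilpotent_iff_lowerCentralSeries _).1 hT3
    have hc' : (Subgroup.closure (Set.range T)).lowerCentralSeries (c + 1) = ⊥ := by
      rw [eq_bot_iff, ← hc]
      exact Subgroup.lowerCentralSeries_antitone _ (Nat.le_succ c)
    obtain ⟨D, hD⟩ : ∃ D, ∀ (i : Fin d) (j : Fin m), (P i j).natDegree ≤ D := by
      refine ⟨∑ i' : Fin d, ∑ j' : Fin m, (P i' j').natDegree, fun i j => ?_⟩
      exact (Finset.single_le_sum (f := fun j' : Fin m => (P i j').natDegree)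
        (fun _ _ => Nat.zero_le _) (Finset.mem_univ j)).trans (Finset.single_le_sum
          (f := fun i' : Fin d => ∑ j' : Fin m, (P i' j').natDegree) (fun _ _ => Nat.zero_le _)
          (Finset.mem_univ i))
    exact poly_of_comm (c := c + 1) (by omega) (h _) X μ d T ⟨hT1, hT2, hc'⟩ P hP0 hD
  tfae_finish

end Pool.Agent.Results.MP_4d8f14_an.LinearExponents
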