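import Pool.Agent.Q183.MD.Two

/-!
# Several degrees: multiple averages of flows at almost every time and continuous averages

Let `τ_1, ..., τ_m` be measurable measure preserving flows on a probability space, with no relation between them (for
instance commuting flows, or flows in an action of a nilpotent Lie group), `d_1, ..., d_m ≥ 1` integers and `f_j` in
`L^∞`. For almost every `a > 0`, with the maps `T_j = τ_j(a^(d_j))`, and almost every `x`: the averages over `|n| ≤ N`
of `∏ f_j(T_j^(n^(d_j)) x)` converge to a number `L` if and only if the continuous averages over `[-V, V]` of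
`∏ f_j(τ_j(t^(d_j)) x)` do.

The degrees may be different: the exponents are not multiples of one polynomial. Proof: in the variable `u = t^D`,
`D > max d_j`, the orbit product is a bounded function whose oscillation in `log u` grows at most linearly in `u`, if
the `f_j` are smooth along the flows; so the discrete average along `a^D n^D` is close to the integral for almost every
`a` (`Pool.Agent.Y957.MC.detg_all`: van der Corput's method and Parseval in `log a`). The errors of the smoothing are
controlled by averages of one nonnegative function at the times `a^(d_j) n^(d_j)` and `(a v)^(d_j)`.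
-/

set_option autoImplicit false

namespace Pool.Agent.Results.MP_4d8f14_an.SeveralDegrees

open MeasureTheory Filter Finset
open scoped ENNReal

universe u

/-- a measurable measure preserving flow -/
structure IsFlow {X : Type u} [MeasurableSpace X] (μ : Measure X) (τ : ℝ → X → X) : Prop where
  meas : Measurable (fun p : ℝ × X => τ p.1 p.2)
  zero : ∀ x, τ 0 x = x
  add : ∀ s t x, τ (s + t) x = τ s (τ t x)
  mp : ∀ t, MeasurePreserving (τ t) μ μ

/-- the time `t` map of a flow, as an invertible map -/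
def timeMap {X : Type u} [MeasurableSpace X] {μ : Measure X} {τ : ℝ → X → X} (h : IsFlow μ τ) (t : ℝ) :
    Equiv.Perm X where
  toFun := τ t
  invFun := τ (-t)
  left_inv x := by rw [← h.add, neg_add_cancel, h.zero]
  right_inv x := by rw [← h.add, add_neg_cancel, h.zero]

theorem timeMap_zpow {X : Type u} [MeasurableSpace X] {μ : Measure X} {τ : ℝ → X → X} (h : IsFlow μ τ) (t : ℝ)
    (k : ℤ) (x : X) : (timeMap h t ^ k) x = τ (k * t) x := by
  have hn : ∀ (n : ℕ) (x : X), (timeMap h t ^ n) x = τ (n * t) x := by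
    intro n
    induction n with
    | zero => intro x; simp [h.zero]
    | succ n ih =>
      intro x
      rw [pow_succ', Equiv.Perm.mul_apply, ih]
      show τ t (τ (n * t) x) = _
      rw [← h.add]
      congr 1
      push_cast
      ring
  obtain ⟨n, rfl | rfl⟩ := k.eq_nat_or_neg
  · rw [zpow_natCast, hn, Int.cast_natCast]
  · rw [zpow_neg, zpow_natCast, Equiv.Perm.inv_eq_iff_eq, hn, ← h.add]
    have : (n : ℝ) * t + ((-(n : ℤ) : ℤ) : ℝ) * t = 0 := by push_cast; ring
    rw [this, h.zero]

theorem result (X : Type u) [MeasurableSpace X] (μ : Measure X) [IsProbabilityMeasure μ] (m : ℕ)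
    (τ : Fin m → ℝ → X → X) (hτ : ∀ j, IsFlow μ (τ j)) (d : Fin m → ℕ) (hd : ∀ j, 0 < d j)
    (f : Fin m → X → ℂ) (hf : ∀ j, MemLp (f j) ∞ μ) :
    ∀ᵐ a : ℝ, 0 < a → ∀ᵐ x ∂μ, ∀ L : ℂ,
      (Tendsto (fun N : ℕ => (1 / (2 * (N : ℂ) + 1)) * ∑ n ∈ Icc (-(N : ℤ)) N,
        ∏ j, f j ((timeMap (hτ j) (a ^ d j) ^ (n ^ d j)) x)) atTop (nhds L) ↔
      Tendsto (fun V : ℝ => (1 / (2 * (V : ℂ))) * ∫ t in (-V)..V, ∏ j, f j (τ j (t ^ d j) x)) atTop (nhds L)) := by
  have hb : ∀ j, ∃ C : ℝ, ∀ᵐ x ∂μ, ‖f j x‖ ≤ C := by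
    intro j
    refine ⟨(eLpNorm (f j) ∞ μ).toReal, ?_⟩
    have h1 : ∀ᵐ x ∂μ, ‖f j x‖ₑ ≤ eLpNormEssSup (f j) μ := ae_le_eLpNormEssSup
    filter_upwards [h1] with x hx
    have h2 : eLpNorm (f j) ∞ μ ≠ ∞ := (hf j).2.ne
    rw [eLpNorm_exponent_top] at h2 ⊢
    have h3 := ENNReal.toReal_mono h2 hx
    simpa using h3
  have h1 := Pool.Agent.Q183.MD.two (fun j => ⟨(hτ j).meas, (hτ j).zero, (hτ j).add, (hτ j).mp⟩) hd
    (fun j => (hf j).1) hb
  filter_upwards [h1] with a ha ha0
  filter_upwards [ha ha0] with x hx L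
  have h2 := hx L
  unfold Pool.Agent.Q183.MD.cin at h2
  rw [← h2]
  have e : ∀ n : ℤ, ∏ j, f j ((timeMap (hτ j) (a ^ d j) ^ (n ^ d j)) x) =
      ∏ j, f j (τ j ((a * (n : ℝ)) ^ d j) x) := by
    intro n
    refine Finset.prod_congr rfl fun j _ => ?_
    rw [timeMap_zpow, mul_pow]
    congr 2
    push_cast
    ring
  simp only [e]

end Pool.Agent.Results.MP_4d8f14_an.SeveralDegrees
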